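import Pool.Agent.H752.SV.Stubs

/-!
# The table of short computations is correct
-/

namespace Pool.Agent.H752.SV

open Pool.Agent.NPC Pool.Agent.H620R2.Gauge

theorem valB_append_true_pos (w : List Bool) : 0 < valB (w ++ [true]) := by
  rw [valB_append]
  simp

theorem bits_valB_append_true (w : List Bool) : (valB (w ++ [true])).bits = w ++ [true] := by
  induction w with
  | nil => simp
  | cons b w ih =>
    have hpos := valB_append_true_pos w
    rw [List.cons_append, valB_cons]
    have h : (if b = true then 1 else 0) + 2 * valB (w ++ [true]) =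
        Nat.bit b (valB (w ++ [true])) := by
      cases b <;> simp [Nat.bit]
      omega
    rw [h, Nat.bits_append_bit _ _ (by intro h0; omega), ih]

theorem strOf_valB (w : List Bool) : strOf (valB (w ++ [true])) = w := by
  unfold strOf
  rw [bits_valB_append_true, List.dropLast_concat]

theorem nlb_iff (q : ℕ) (p : Polynomial ℕ) (V : List Bool → List Bool) (x : List Bool) (i : ℕ) :
    nlb q p x (tab V x) i = true ↔ ¬ ∃ t < (x.length + 1) ^ 3, qi x.length t = i ∧
      q ^ qi x.length t ≤ qm x.length t ∧ qm x.length t < q ^ (qi x.length t + 1) ∧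
      (strOf (qk x.length t)).length ≤ p.eval (qm x.length t) ∧
      V (pairBits (strOf (qk x.length t)) (List.replicate (qm x.length t) true)) = [true] := by
  unfold nlb
  rw [Bool.not_eq_true', ← Bool.not_eq_true, List.any_eq_true]
  refine not_congr ⟨?_, ?_⟩
  · rintro ⟨t, ht, h⟩
    rw [List.mem_range] at ht
    simp only [valid, Bool.and_eq_true, decide_eq_true_eq] at h
    obtain ⟨⟨h1, ⟨h2, h3⟩, h4⟩, h5⟩ := h
    refine ⟨t, ht, h1, h2, h3, h4, ?_⟩
    unfold tab at h5
    rw [List.getD_eq_getElem?_getD, List.getElem?_map, List.getElem?_range ht] at h5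
    simpa [qry] using h5
  · rintro ⟨t, ht, h1, h2, h3, h4, h5⟩
    refine ⟨t, List.mem_range.2 ht, ?_⟩
    simp only [valid, Bool.and_eq_true, decide_eq_true_eq]
    refine ⟨⟨h1, ⟨h2, h3⟩, h4⟩, ?_⟩
    unfold tab
    rw [List.getD_eq_getElem?_getD, List.getElem?_map, List.getElem?_range ht]
    simpa [qry] using h5

theorem t_tab : St_tab := by
  intro q hq p r V L hL x i hx
  rw [nlb_iff]
  have hq0 : 0 < q := by omega
  set n := x.length with hn
  have hlam : lam q p r i = 2 * (q * (i + 1) + p.eval (q ^ (i + 1)) + 1 + i) + r := rfl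
  have hle : ∀ a, a ≤ lam q p r i → q ^ a ≤ n := fun a ha =>
    le_trans (Nat.pow_le_pow_right hq0 ha) hx
  have hin : i ≤ n := by
    have h1 : i < q ^ i := Nat.lt_pow_self (by omega)
    have h2 := hle i (by rw [hlam]; omega)
    omega
  have hmn : q ^ (i + 1) ≤ n := by
    apply hle
    rw [hlam]
    have : i + 1 ≤ q * (i + 1) := Nat.le_mul_of_pos_left _ hq0
    omega
  have hkn : 2 ^ (p.eval (q ^ (i + 1)) + 1) ≤ n :=
    le_trans (Nat.pow_le_pow_left hq _) (hle _ (by rw [hlam]; omega))
  constructor
  · intro h m hm1 hm2 hmem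
    apply h
    obtain ⟨w, hw, hV⟩ := (hL _).1 hmem
    rw [List.length_replicate] at hw
    set k := valB (w ++ [true]) with hk
    have hwp : w.length ≤ p.eval (q ^ (i + 1)) := le_trans hw (eval_mono p hm2.le)
    have hk1 : k < 2 ^ (w.length + 1) := by
      have := valB_lt (w ++ [true])
      rwa [List.length_append, List.length_singleton] at this
    have hk2 : k < n := lt_of_lt_of_le hk1
      (le_trans (Nat.pow_le_pow_right (by norm_num) (by omega)) hkn)
    have hm3 : m < n := lt_of_lt_of_le hm2 hmn
    set t := i + (n + 1) * (m + (n + 1) * k) with ht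
    have hqi : qi n t = i := by
      unfold qi
      rw [ht, Nat.add_mul_mod_self_left, Nat.mod_eq_of_lt (by omega)]
    have hdiv : t / (n + 1) = m + (n + 1) * k := by
      rw [ht, Nat.add_mul_div_left _ _ (by omega), Nat.div_eq_of_lt (by omega), zero_add]
    have hqm : qm n t = m := by
      unfold qm
      rw [hdiv, Nat.add_mul_mod_self_left, Nat.mod_eq_of_lt (by omega)]
    have hqk : qk n t = k := by
      unfold qk
      rw [hdiv, Nat.add_mul_div_left _ _ (by omega), Nat.div_eq_of_lt (by omega), zero_add]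
    refine ⟨t, ?_, hqi, ?_, ?_, ?_, ?_⟩
    · have h1 : m + (n + 1) * k < (n + 1) * (n + 1) := by
        have : (n + 1) * (k + 1) ≤ (n + 1) * (n + 1) := Nat.mul_le_mul_left _ (by omega)
        have h2 : (n + 1) * (k + 1) = (n + 1) * k + (n + 1) := by ring
        omega
      have h2 : (n + 1) * (m + (n + 1) * k + 1) ≤ (n + 1) * ((n + 1) * (n + 1)) :=
        Nat.mul_le_mul_left _ (by omega)
      have h3 : (n + 1) * (m + (n + 1) * k + 1) = (n + 1) * (m + (n + 1) * k) + (n + 1) := by ring
      have h4 : (n + 1) ^ 3 = (n + 1) * ((n + 1) * (n + 1)) := by ring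
      rw [h4]
      omega
    · rw [hqi, hqm]; exact hm1
    · rw [hqi, hqm]; exact hm2
    · rw [hqk, hqm, hk, strOf_valB]; exact hw
    · rw [hqk, hqm, hk, strOf_valB]; exact hV
  · rintro h ⟨t, -, h1, h2, h3, h4, h5⟩
    rw [h1] at h2 h3
    refine h (qm n t) h2 h3 ((hL _).2 ⟨strOf (qk n t), ?_, h5⟩)
    rw [List.length_replicate]
    exact h4

end Pool.Agent.H752.SV
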